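import Pool.Agent.LibCM64.StA
import Pool.Agent.LibCM64.DiagA
import Pool.Agent.LibCM64.Main

/-! Fixed points of regular automorphisms of Calogero-Moser spaces (MP_64e2fc_ag): Q1 for `(V,W,τ)` is equivalent to a statement
about diagonal invariants. -/

namespace Pool.Agent.Results.MP_64e2fc_ag.Criterion

open Pool.Agent.CM64 Module

/-- For every finite reflection group `W ⊂ GL(V)` and every regular element `τ` of finite order of its normaliser: Q1 holds for
`(V,W,τ)` (for all `τ`-stable parameters `k` at once) if and only if every `W^τ`-invariant polynomial function on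
`(V × V*)^τ` is the restriction of a `W`-invariant polynomial function on `V × V*`. -/
theorem result {V : Type} [AddCommGroup V] [Module ℂ V] [FiniteDimensional ℂ V] (W : Subgroup (V ≃ₗ[ℂ] V))
    [Finite W] (τ : V ≃ₗ[ℂ] V) (hW : ReflGen W) (hτ : Normalizes τ W) (hfin : IsOfFinOrder τ)
    (hreg : IsRegular W τ) : QS W τ ↔ DiagRes W τ := by
  rw [QS_iff hτ, diagRes_iff W hfin (Module.finBasis ℂ V) (Module.finBasis ℂ ↥(fixSub τ))]
  exact ⟨fun h => surj_of_Q1 hW hτ hfin hreg h, fun h => Q1_of_surj hW hτ hfin hreg h⟩

end Pool.Agent.Results.MP_64e2fc_ag.Criterion
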