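import Pool.Agent.LibCM64.StA
import Pool.Agent.LibCM64.StCovA
import Pool.Agent.LibCM64.Cov

/-! Fixed points of regular automorphisms of Calogero-Moser spaces (MP_64e2fc_ag): Q1 holds for the groups `G(m,p,n)` and
in some other cases. -/

namespace Pool.Agent.Results.MP_64e2fc_ag.Imprimitive

open Pool.Agent.CM64 Module

/-- Let `W ⊂ GL(V)` be a finite reflection group and `τ` a regular element of finite order of its normaliser. If `(V,W,τ)` is
in the class `CovS` then Q1 holds for `(V,W,τ)`: there is a linear map `λ` such that for all `τ`-stable parameters `k` the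
component of maximal dimension of `𝒵_k(V,W)^τ` is isomorphic to `𝒵_{λ(k)}(V^τ,W^τ)`, equivariantly for `ℂ^×` and as a Poisson
variety. The class `CovS` is the smallest class which contains the `(V,W,τ)` with `dim V^τ ≤ 1` or `dim V ≤ 2`, those with
`τ = 1`, the groups `W = G(m,p,n)` with `τ` a scalar multiple of an element of `G(m,1,n)`, the groups `W = 𝔖_n` acting on
`ℂ^{n-1}` with `τ` a scalar multiple of an element of `𝔖_n`, and is closed under products and under replacing `W` by a product
of copies cyclically permuted by `τ`. -/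
theorem result {V : Type} [AddCommGroup V] [Module ℂ V] [FiniteDimensional ℂ V] (W : Subgroup (V ≃ₗ[ℂ] V))
    [Finite W] (τ : V ≃ₗ[ℂ] V) (hW : ReflGen W) (hτ : Normalizes τ W) (hfin : IsOfFinOrder τ)
    (hreg : IsRegular W τ) (h : CovS V W τ) : QS W τ := by
  rw [QS_iff hτ]
  exact Q1_of_cov hW hτ hfin hreg (cov_of_covS h)

end Pool.Agent.Results.MP_64e2fc_ag.Imprimitive
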