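import Pool.Agent.LibCM64.StB

/-! Fixed points of regular automorphisms of Calogero-Moser spaces (MP_64e2fc_ag): for all `(V,W,τ)` and all `τ`-stable `k` the
normalisation of the component of maximal dimension of `𝒵_k^τ` is `𝒵_{λ(k)}(V^τ,W^τ)`. -/

namespace Pool.Agent.Results.MP_64e2fc_ag.Normalisation

open Pool.Agent.CM64 Module

/-- For every finite reflection group `W ⊂ GL(V)` and every regular element `τ` of finite order of its normaliser there is a
linear map `λ` such that for every `τ`-stable parameter `k` there is a homomorphism of algebras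
`φ : Z_k(V,W) → Z_{λ(k)}(V^τ,W^τ)` with the properties:
its kernel is the prime ideal of the component of maximal dimension of `𝒵_k^τ`, which has dimension `2 dim V^τ`;
`φ` is `ℂ^×`-equivariant and compatible with the Poisson brackets;
`Z_{λ(k)}(V^τ,W^τ)` is an integrally closed domain, integral over the image of `φ` and contained in its fraction field.
So `𝒵_{λ(k)}(V^τ,W^τ)` is the normalisation of the component. -/
theorem result {V : Type} [AddCommGroup V] [Module ℂ V] [FiniteDimensional ℂ V] (W : Subgroup (V ≃ₗ[ℂ] V))
    [Finite W] (τ : V ≃ₗ[ℂ] V) (hW : ReflGen W) (hτ : Normalizes τ W) (hfin : IsOfFinOrder τ)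
    (hreg : IsRegular W τ) : QN W τ :=
  QN_holds hW hτ hfin hreg

end Pool.Agent.Results.MP_64e2fc_ag.Normalisation
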